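import Pool.Agent.K7.H87.EX.Stm

set_option autoImplicit false

namespace Pool.Agent.K7.H12.EXRR

open Pool.Agent.K7.H87.EX

/-- RR: an invariant order gives property R. -/
theorem t : StRR := by
  intro G _ H _ P hP h hh g n hn hc
  have hgh : g * h * g⁻¹ ∈ H := Subgroup.Normal.conj_mem inferInstance h hh g
  have hu : h⁻¹ * (g * h * g⁻¹) ∈ H := H.mul_mem (H.inv_mem hh) hgh
  by_cases h1 : h⁻¹ * (g * h * g⁻¹) = 1
  · have h2 : g * h * g⁻¹ = h := by
      have := congrArg (fun x => h * x) h1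
      simpa [mul_assoc] using this
    have h3 : g * h = h * g := by
      have := congrArg (fun x => x * g) h2
      simpa [mul_assoc] using this
    exact h3.symm
  · exfalso
    rcases hP.tot _ hu h1 with hp | hp
    · have key : ∀ m : ℕ, h⁻¹ * g ^ (m + 1) * h * (g ^ (m + 1))⁻¹ ∈ P := by
        intro m
        induction m with
        | zero => simpa [mul_assoc] using hp
        | succ m ih =>
          have h4 := hP.mul _ hp _ (hP.conj g _ ih)
          have h5 : h⁻¹ * (g * h * g⁻¹) * (g * (h⁻¹ * g ^ (m + 1) * h * (g ^ (m + 1))⁻¹) * g⁻¹) =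
              h⁻¹ * g ^ (m + 1 + 1) * h * (g ^ (m + 1 + 1))⁻¹ := by
            rw [pow_succ' g (m + 1)]
            group
          rw [h5] at h4
          exact h4
      obtain ⟨m, rfl⟩ : ∃ m, n = m + 1 := ⟨n - 1, by omega⟩
      have h6 := key m
      have h7 : h⁻¹ * g ^ (m + 1) * h * (g ^ (m + 1))⁻¹ = 1 := by
        rw [mul_assoc h⁻¹, ← hc]
        group
      rw [h7] at h6
      exact hP.one h6
    · have hp' : g * h⁻¹ * g⁻¹ * h ∈ P := by
        have h8 : (h⁻¹ * (g * h * g⁻¹))⁻¹ = g * h⁻¹ * g⁻¹ * h := by group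
        rw [h8] at hp
        exact hp
      have key : ∀ m : ℕ, g ^ (m + 1) * h⁻¹ * (g ^ (m + 1))⁻¹ * h ∈ P := by
        intro m
        induction m with
        | zero => simpa [mul_assoc] using hp'
        | succ m ih =>
          have h4 := hP.mul _ (hP.conj g _ ih) _ hp'
          have h5 : g * (g ^ (m + 1) * h⁻¹ * (g ^ (m + 1))⁻¹ * h) * g⁻¹ * (g * h⁻¹ * g⁻¹ * h) =
              g ^ (m + 1 + 1) * h⁻¹ * (g ^ (m + 1 + 1))⁻¹ * h := by
            rw [pow_succ' g (m + 1)]
            group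
          rw [h5] at h4
          exact h4
      obtain ⟨m, rfl⟩ : ∃ m, n = m + 1 := ⟨n - 1, by omega⟩
      have h6 := key m
      have h7 : g ^ (m + 1) * h⁻¹ * (g ^ (m + 1))⁻¹ * h = 1 := by
        have h9 : h⁻¹ * (g ^ (m + 1))⁻¹ = (g ^ (m + 1))⁻¹ * h⁻¹ := by
          rw [← mul_inv_rev, ← mul_inv_rev, hc]
        rw [mul_assoc (g ^ (m + 1)), h9]
        group
      rw [h7] at h6
      exact hP.one h6

end Pool.Agent.K7.H12.EXRR
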