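import Pool.Agent.K7.H80.MD.Stm

/-! Job DIAM of the project MD (MP_437110_pr). -/

set_option autoImplicit false

namespace Pool.Agent.K7.H12.MDDIAM

open Pool.Agent.K7.H80.MD Finset

open Classical in
noncomputable def wt (n : ℕ) (p : ℝ) (G : SimpleGraph (Fin n)) : ℝ :=
  p ^ G.edgeFinset.card * (1 - p) ^ (n.choose 2 - G.edgeFinset.card)

theorem wt_nonneg (n : ℕ) (p : ℝ) (hp0 : 0 ≤ p) (hp1 : p ≤ 1) (G : SimpleGraph (Fin n)) :
    0 ≤ wt n p G := by
  unfold wt
  have : 0 ≤ 1 - p := by linarith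
  positivity

open Classical in
theorem Pr_eq (n : ℕ) (p : ℝ) (A : SimpleGraph (Fin n) → Prop) :
    Pr n p A = ∑ G, if A G then wt n p G else 0 := by
  unfold Pr wt
  rw [Finset.sum_filter]

theorem Pr_le_sum {ι : Type} (n : ℕ) (p : ℝ) (hp0 : 0 ≤ p) (hp1 : p ≤ 1)
    (A : SimpleGraph (Fin n) → Prop) (s : Finset ι) (B : ι → SimpleGraph (Fin n) → Prop)
    (h : ∀ G, A G → ∃ i ∈ s, B i G) : Pr n p A ≤ ∑ i ∈ s, Pr n p (B i) := by
  classical
  simp only [Pr_eq]
  rw [Finset.sum_comm]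
  refine Finset.sum_le_sum fun G _ => ?_
  have hnn : ∀ i ∈ s, 0 ≤ (if B i G then wt n p G else 0) := by
    intro i _
    split_ifs
    · exact wt_nonneg n p hp0 hp1 G
    · exact le_rfl
  by_cases hA : A G
  · obtain ⟨i, hi, hB⟩ := h G hA
    rw [if_pos hA]
    have h1 := Finset.single_le_sum (f := fun i => if B i G then wt n p G else 0) hnn hi
    simp only [if_pos hB] at h1
    exact h1
  · rw [if_neg hA]
    exact Finset.sum_nonneg hnn

open Classical in
theorem Pr_OZ (hProd : StProd) (n : ℕ) (p : ℝ) (O Z : Finset (Sym2 (Fin n)))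
    (hO : ∀ e ∈ O, ¬ e.IsDiag) (hZ : ∀ e ∈ Z, ¬ e.IsDiag) (hd : Disjoint O Z) :
    Pr n p (fun G => (∀ e ∈ O, e ∈ G.edgeSet) ∧ ∀ e ∈ Z, e ∉ G.edgeSet) =
      p ^ O.card * (1 - p) ^ Z.card := by
  have h := hProd n p (fun e => if e ∈ Z then 0 else 1) (fun e => if e ∈ O then 0 else 1)
  have e1 : ∀ G : SimpleGraph (Fin n), ((∏ e ∈ G.edgeFinset, (if e ∈ Z then (0 : ℝ) else 1)) *
      ∏ e ∈ (univ.filter fun e : Sym2 (Fin n) => ¬ e.IsDiag) \ G.edgeFinset,
        (if e ∈ O then (0 : ℝ) else 1)) =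
      if ((∀ e ∈ O, e ∈ G.edgeSet) ∧ ∀ e ∈ Z, e ∉ G.edgeSet) then 1 else 0 := by
    intro G
    split_ifs with hc
    · obtain ⟨h1, h2⟩ := hc
      rw [Finset.prod_eq_one, Finset.prod_eq_one, one_mul]
      · intro e he
        rw [if_neg]
        intro heO
        rw [Finset.mem_sdiff] at he
        exact he.2 (SimpleGraph.mem_edgeFinset.2 (h1 e heO))
      · intro e he
        rw [if_neg]
        intro heZ
        exact h2 e heZ (SimpleGraph.mem_edgeFinset.1 he)
    · rw [not_and_or] at hc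
      rcases hc with hc | hc
      · push Not at hc
        obtain ⟨e, he, he2⟩ := hc
        refine mul_eq_zero_of_right _ (Finset.prod_eq_zero (i := e) ?_ ?_)
        · rw [Finset.mem_sdiff]
          refine ⟨by simpa using hO e he, ?_⟩
          rw [SimpleGraph.mem_edgeFinset]
          exact he2
        · rw [if_pos he]
      · push Not at hc
        obtain ⟨e, he, he2⟩ := hc
        refine mul_eq_zero_of_left (Finset.prod_eq_zero (i := e) ?_ ?_) _
        · rw [SimpleGraph.mem_edgeFinset]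
          exact he2
        · rw [if_pos he]
  have e2 : ∏ e ∈ univ.filter (fun e : Sym2 (Fin n) => ¬ e.IsDiag),
      (p * (if e ∈ Z then (0 : ℝ) else 1) + (1 - p) * (if e ∈ O then (0 : ℝ) else 1)) =
      p ^ O.card * (1 - p) ^ Z.card := by
    have e3 : ∀ e : Sym2 (Fin n),
        (p * (if e ∈ Z then (0 : ℝ) else 1) + (1 - p) * (if e ∈ O then (0 : ℝ) else 1)) =
        (if e ∈ O then p else 1) * (if e ∈ Z then (1 - p) else 1) := by
      intro e
      by_cases h1 : e ∈ O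
      · have h2 : e ∉ Z := Finset.disjoint_left.1 hd h1
        simp [h1, h2]
      · by_cases h2 : e ∈ Z
        · simp [h1, h2]
        · simp [h1, h2]
    rw [Finset.prod_congr rfl fun e _ => e3 e, Finset.prod_mul_distrib, Finset.prod_ite_mem,
      Finset.prod_ite_mem, Finset.prod_const, Finset.prod_const]
    have i1 : (univ.filter (fun e : Sym2 (Fin n) => ¬ e.IsDiag)) ∩ O = O := by
      apply Finset.inter_eq_right.2
      intro e he
      simpa using hO e he
    have i2 : (univ.filter (fun e : Sym2 (Fin n) => ¬ e.IsDiag)) ∩ Z = Z := by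
      apply Finset.inter_eq_right.2
      intro e he
      simpa using hZ e he
    rw [i1, i2]
  rw [Pr_eq, ← e2, ← h]
  refine Finset.sum_congr rfl fun G _ => ?_
  rw [e1 G]
  unfold wt
  split_ifs
  · rw [mul_one]
  · rw [mul_zero]

theorem exV (n : ℕ) (hn : 6 ≤ n) (u v : Fin n) : ∃ V1 V2 : Finset (Fin n),
    (n : ℝ) / 4 ≤ V1.card ∧ (n : ℝ) / 4 ≤ V2.card ∧ Disjoint V1 V2 ∧
    u ∉ V1 ∧ v ∉ V1 ∧ u ∉ V2 ∧ v ∉ V2 := by
  have hT : n - 2 ≤ (univ \ {u, v} : Finset (Fin n)).card := by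
    rw [Finset.card_sdiff_of_subset (Finset.subset_univ _), Finset.card_univ, Fintype.card_fin]
    have : ({u, v} : Finset (Fin n)).card ≤ 2 := Finset.card_le_two
    omega
  obtain ⟨V1, h1, c1⟩ := Finset.exists_subset_card_eq
    (show (n + 3) / 4 ≤ (univ \ {u, v} : Finset (Fin n)).card by omega)
  have hT2 : (n + 3) / 4 ≤ ((univ \ {u, v} : Finset (Fin n)) \ V1).card := by
    rw [Finset.card_sdiff_of_subset h1]
    omega
  obtain ⟨V2, h2, c2⟩ := Finset.exists_subset_card_eq hT2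
  have hk : (n : ℝ) / 4 ≤ (((n + 3) / 4 : ℕ) : ℝ) := by
    have : n ≤ 4 * ((n + 3) / 4) := by omega
    have h3 : (n : ℝ) ≤ 4 * (((n + 3) / 4 : ℕ) : ℝ) := by exact_mod_cast this
    linarith
  refine ⟨V1, V2, by rw [c1]; exact hk, by rw [c2]; exact hk, ?_, ?_, ?_, ?_, ?_⟩
  · rw [Finset.disjoint_right]
    intro x hx
    exact (Finset.mem_sdiff.1 (h2 hx)).2
  · intro h; have := h1 h; simp at this
  · intro h; have := h1 h; simp at this
  · intro h; have := (Finset.mem_sdiff.1 (h2 h)).1; simp at this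
  · intro h; have := (Finset.mem_sdiff.1 (h2 h)).1; simp at this

theorem tail (p : ℝ) (hp0 : 0 ≤ p) (hp1 : p ≤ 1) (n k : ℕ) (hk : (n : ℝ) / 4 ≤ k) :
    (2 : ℝ) ^ ((n : ℝ) * p / 16) * (p * (1 / 2) + (1 - p)) ^ k ≤ Real.exp (-(n * p / 16)) := by
  have h1 : (p * (1 / 2) + (1 - p)) ^ k ≤ Real.exp (-(p / 2)) ^ k := by
    apply pow_le_pow_left₀ (by linarith)
    have := Real.add_one_le_exp (-(p / 2))
    linarith
  have h2 : Real.exp (-(p / 2)) ^ k = Real.exp (-(p / 2) * k) := by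
    rw [← Real.exp_nat_mul]; ring_nf
  have h3 : (2 : ℝ) ^ ((n : ℝ) * p / 16) = Real.exp (Real.log 2 * ((n : ℝ) * p / 16)) := by
    rw [Real.rpow_def_of_pos (by norm_num)]
  rw [h2] at h1
  calc (2 : ℝ) ^ ((n : ℝ) * p / 16) * (p * (1 / 2) + (1 - p)) ^ k
      ≤ Real.exp (Real.log 2 * ((n : ℝ) * p / 16)) * Real.exp (-(p / 2) * k) := by
        rw [h3]
        exact mul_le_mul_of_nonneg_left h1 (Real.exp_pos _).le
    _ = Real.exp (Real.log 2 * ((n : ℝ) * p / 16) + -(p / 2) * k) := by rw [Real.exp_add]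
    _ ≤ _ := by
        apply Real.exp_le_exp.2
        have h4 : Real.log 2 ≤ 1 := by
          have := Real.log_two_lt_d9
          linarith
        have hnp : 0 ≤ (n : ℝ) * p / 16 := by positivity
        have h5 : Real.log 2 * ((n : ℝ) * p / 16) ≤ (n : ℝ) * p / 16 := by
          nlinarith
        have h6 : (p / 2) * ((n : ℝ) / 4) ≤ (p / 2) * k :=
          mul_le_mul_of_nonneg_left hk (by linarith)
        nlinarith

theorem trich (p m : ℝ) (hp0 : 0 ≤ p) (hp1 : p ≤ 1) (hm : 0 ≤ m) (a b : ℕ) :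
    (1 - p) ^ (a * b) ≤ (2 : ℝ) ^ m * (1 / 2) ^ a + (2 : ℝ) ^ m * (1 / 2) ^ b +
      Real.exp (-(p * m ^ 2)) := by
  have hq : (1 - p) ^ (a * b) ≤ 1 := pow_le_one₀ (by linarith) (by linarith)
  have hpos : ∀ c : ℕ, 0 ≤ (2 : ℝ) ^ m * (1 / 2) ^ c := fun c => by positivity
  have hone : ∀ c : ℕ, (c : ℝ) ≤ m → 1 ≤ (2 : ℝ) ^ m * (1 / 2) ^ c := by
    intro c hc
    have h1 : (2 : ℝ) ^ c ≤ (2 : ℝ) ^ m := by
      rw [← Real.rpow_natCast]
      exact Real.rpow_le_rpow_of_exponent_le (by norm_num) hc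
    have h2 : (2 : ℝ) ^ c * (1 / 2) ^ c = 1 := by
      rw [← mul_pow]; norm_num
    calc (1 : ℝ) = (2 : ℝ) ^ c * (1 / 2) ^ c := h2.symm
      _ ≤ _ := mul_le_mul_of_nonneg_right h1 (by positivity)
  have he := (Real.exp_pos (-(p * m ^ 2))).le
  rcases le_or_gt (a : ℝ) m with h | h
  · have := hone a h
    have := hpos b
    linarith
  rcases le_or_gt (b : ℝ) m with h' | h'
  · have := hone b h'
    have := hpos a
    linarith
  have h3 : (1 - p) ^ (a * b) ≤ Real.exp (-(p * m ^ 2)) := by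
    calc (1 - p) ^ (a * b) ≤ Real.exp (-p) ^ (a * b) := by
          apply pow_le_pow_left₀ (by linarith)
          have := Real.add_one_le_exp (-p)
          linarith
      _ = Real.exp (-(p * (a * b))) := by
          rw [← Real.exp_nat_mul]; push_cast; ring_nf
      _ ≤ _ := by
          apply Real.exp_le_exp.2
          have h4 : m ^ 2 ≤ a * b := by
            rw [sq]
            exact mul_le_mul h.le h'.le hm (by positivity)
          have := mul_le_mul_of_nonneg_left h4 hp0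
          linarith
  have := hpos a
  have := hpos b
  linarith

theorem prodsum {α β : Type} (P1 : Finset α) (P2 : Finset β) (F : α → ℝ) (H : β → ℝ) :
    ∑ q ∈ P1 ×ˢ P2, F q.1 * H q.2 = (∑ a ∈ P1, F a) * ∑ b ∈ P2, H b := by
  rw [Finset.sum_product, Finset.sum_mul_sum]

theorem total (p : ℝ) (hp0 : 0 ≤ p) (hp1 : p ≤ 1) (n : ℕ) {α : Type} [DecidableEq α]
    (V1 V2 : Finset α) (h1 : (n : ℝ) / 4 ≤ V1.card) (h2 : (n : ℝ) / 4 ≤ V2.card) :
    ∑ q ∈ V1.powerset ×ˢ V2.powerset, p ^ (q.1.card + q.2.card) *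
      (1 - p) ^ ((V1.card - q.1.card) + (V2.card - q.2.card) + q.1.card * q.2.card) ≤
    2 * Real.exp (-(n * p / 16)) + Real.exp (-(p * (n * p / 16) ^ 2)) := by
  set m : ℝ := (n : ℝ) * p / 16 with hm
  have hm0 : 0 ≤ m := by positivity
  let w : Finset α → Finset α → ℝ := fun V A => p ^ A.card * (1 - p) ^ (V.card - A.card)
  have hw : ∀ V A, 0 ≤ w V A := by
    intro V A
    have : 0 ≤ 1 - p := by linarith
    positivity
  have s1 : ∀ V : Finset α, ∑ A ∈ V.powerset, w V A = 1 := by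
    intro V
    have := Finset.sum_pow_mul_eq_add_pow p (1 - p) V
    rw [show p + (1 - p) = 1 by ring, one_pow] at this
    exact this
  have s2 : ∀ V : Finset α, ∑ A ∈ V.powerset, w V A * (1 / 2) ^ A.card =
      (p * (1 / 2) + (1 - p)) ^ V.card := by
    intro V
    have := Finset.sum_pow_mul_eq_add_pow (p * (1 / 2)) (1 - p) V
    rw [← this]
    refine Finset.sum_congr rfl fun A _ => ?_
    show p ^ A.card * (1 - p) ^ (V.card - A.card) * (1 / 2) ^ A.card = _
    rw [mul_pow]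
    ring
  have b1 : ∑ q ∈ V1.powerset ×ˢ V2.powerset, p ^ (q.1.card + q.2.card) *
      (1 - p) ^ ((V1.card - q.1.card) + (V2.card - q.2.card) + q.1.card * q.2.card) ≤
      ∑ q ∈ V1.powerset ×ˢ V2.powerset,
        ((w V1 q.1 * (1 / 2) ^ q.1.card) * ((2 : ℝ) ^ m * w V2 q.2) +
        ((2 : ℝ) ^ m * w V1 q.1) * (w V2 q.2 * (1 / 2) ^ q.2.card) +
        (Real.exp (-(p * m ^ 2)) * w V1 q.1) * w V2 q.2) := by
    refine Finset.sum_le_sum fun q _ => ?_
    have h3 := trich p m hp0 hp1 hm0 q.1.card q.2.card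
    have h4 : 0 ≤ w V1 q.1 * w V2 q.2 := mul_nonneg (hw _ _) (hw _ _)
    have h5 := mul_le_mul_of_nonneg_left h3 h4
    have e1 : p ^ (q.1.card + q.2.card) *
        (1 - p) ^ ((V1.card - q.1.card) + (V2.card - q.2.card) + q.1.card * q.2.card) =
        w V1 q.1 * w V2 q.2 * (1 - p) ^ (q.1.card * q.2.card) := by
      show _ = p ^ q.1.card * (1 - p) ^ (V1.card - q.1.card) *
        (p ^ q.2.card * (1 - p) ^ (V2.card - q.2.card)) * _
      rw [pow_add, pow_add, pow_add]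
      ring
    rw [e1]
    refine h5.trans (le_of_eq ?_)
    ring
  refine b1.trans ?_
  rw [Finset.sum_add_distrib, Finset.sum_add_distrib,
    prodsum V1.powerset V2.powerset (fun A => w V1 A * (1 / 2) ^ A.card)
      (fun B => (2 : ℝ) ^ m * w V2 B),
    prodsum V1.powerset V2.powerset (fun A => (2 : ℝ) ^ m * w V1 A)
      (fun B => w V2 B * (1 / 2) ^ B.card),
    prodsum V1.powerset V2.powerset (fun A => Real.exp (-(p * m ^ 2)) * w V1 A)
      (fun B => w V2 B), ← Finset.mul_sum, ← Finset.mul_sum, ← Finset.mul_sum, s1, s1, s2, s2]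
  have t1 := tail p hp0 hp1 n V1.card h1
  have t2 := tail p hp0 hp1 n V2.card h2
  rw [← hm] at t1 t2
  linarith

open Classical in
theorem pair (hProd : StProd) (n : ℕ) (p : ℝ) (hn : 6 ≤ n) (hp0 : 0 ≤ p) (hp1 : p ≤ 1)
    (u v : Fin n) (huv : u ≠ v) :
    Pr n p (fun G => ¬ (G.Reachable u v ∧ G.dist u v ≤ 3)) ≤
      2 * Real.exp (-(n * p / 16)) + Real.exp (-(p * (n * p / 16) ^ 2)) := by
  obtain ⟨V1, V2, c1, c2, hd, hu1, hv1, hu2, hv2⟩ := exV n hn u v
  let O : Finset (Fin n) × Finset (Fin n) → Finset (Sym2 (Fin n)) := fun q =>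
    q.1.image (fun a => s(u, a)) ∪ q.2.image (fun b => s(v, b))
  let Z : Finset (Fin n) × Finset (Fin n) → Finset (Sym2 (Fin n)) := fun q =>
    ((V1 \ q.1).image (fun a => s(u, a)) ∪ (V2 \ q.2).image (fun b => s(v, b))) ∪
      (q.1 ×ˢ q.2).image (fun c => s(c.1, c.2))
  have h1 : Pr n p (fun G => ¬ (G.Reachable u v ∧ G.dist u v ≤ 3)) ≤
      ∑ q ∈ V1.powerset ×ˢ V2.powerset,
        Pr n p (fun G => (∀ e ∈ O q, e ∈ G.edgeSet) ∧ ∀ e ∈ Z q, e ∉ G.edgeSet) := by
    apply Pr_le_sum n p hp0 hp1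
    intro G hG
    refine ⟨(V1.filter (G.Adj u), V2.filter (G.Adj v)), ?_, ?_, ?_⟩
    · rw [Finset.mem_product, Finset.mem_powerset, Finset.mem_powerset]
      exact ⟨Finset.filter_subset _ _, Finset.filter_subset _ _⟩
    · intro e he
      simp only [O, Finset.mem_union, Finset.mem_image, Finset.mem_filter] at he
      rcases he with ⟨a, ⟨_, ha⟩, rfl⟩ | ⟨a, ⟨_, ha⟩, rfl⟩
      · exact ha
      · exact ha
    · intro e he
      simp only [Z, Finset.mem_union, Finset.mem_image, Finset.mem_filter, Finset.mem_sdiff,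
        Finset.mem_product] at he
      rcases he with (⟨a, ⟨h1, h2⟩, rfl⟩ | ⟨a, ⟨h1, h2⟩, rfl⟩) | ⟨⟨a, b⟩, ⟨⟨h1, h2⟩, h3, h4⟩, rfl⟩
      · intro h
        exact h2 ⟨h1, h⟩
      · intro h
        exact h2 ⟨h1, h⟩
      · intro h
        have h5 : G.Adj a b := h
        apply hG
        let W : G.Walk u v := SimpleGraph.Walk.cons h2 (SimpleGraph.Walk.cons h5
          (SimpleGraph.Walk.cons h4.symm SimpleGraph.Walk.nil))
        exact ⟨W.reachable, SimpleGraph.dist_le W⟩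
  refine h1.trans (le_trans (Finset.sum_le_sum fun q hq => ?_)
    (total p hp0 hp1 n V1 V2 c1 c2))
  rw [Finset.mem_product, Finset.mem_powerset, Finset.mem_powerset] at hq
  obtain ⟨hq1, hq2⟩ := hq
  have iu : ∀ a b : Fin n, s(u, a) = s(u, b) → a = b := by
    intro a b h
    rw [Sym2.eq_iff] at h
    rcases h with ⟨_, h⟩ | ⟨h1, h2⟩
    · exact h
    · rw [h2, ← h1]
  have iv : ∀ a b : Fin n, s(v, a) = s(v, b) → a = b := by
    intro a b h
    rw [Sym2.eq_iff] at h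
    rcases h with ⟨_, h⟩ | ⟨h1, h2⟩
    · exact h
    · rw [h2, ← h1]
  have d12 : ∀ a ∈ V1, ∀ b ∈ V2, s(u, a) ≠ s(v, b) := by
    intro a ha b hb h
    rw [Sym2.eq_iff] at h
    rcases h with ⟨h, _⟩ | ⟨h, _⟩
    · exact huv h
    · exact hu2 (h ▸ hb)
  have d13 : ∀ x : Fin n, ∀ a ∈ V1, ∀ b ∈ V2, s(u, x) ≠ s(a, b) := by
    intro x a ha b hb h
    rw [Sym2.eq_iff] at h
    rcases h with ⟨h, _⟩ | ⟨h, _⟩
    · exact hu1 (h ▸ ha)
    · exact hu2 (h ▸ hb)
  have d23 : ∀ x : Fin n, ∀ a ∈ V1, ∀ b ∈ V2, s(v, x) ≠ s(a, b) := by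
    intro x a ha b hb h
    rw [Sym2.eq_iff] at h
    rcases h with ⟨h, _⟩ | ⟨h, _⟩
    · exact hv1 (h ▸ ha)
    · exact hv2 (h ▸ hb)
  have ndu : ∀ a ∈ V1, ¬ (s(u, a)).IsDiag := by
    intro a ha h
    rw [Sym2.mk_isDiag_iff] at h
    exact hu1 (h ▸ ha)
  have ndv : ∀ a ∈ V2, ¬ (s(v, a)).IsDiag := by
    intro a ha h
    rw [Sym2.mk_isDiag_iff] at h
    exact hv2 (h ▸ ha)
  have ndw : ∀ a ∈ V1, ∀ b ∈ V2, ¬ (s(a, b)).IsDiag := by
    intro a ha b hb h
    rw [Sym2.mk_isDiag_iff] at h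
    exact Finset.disjoint_left.1 hd ha (h ▸ hb)
  rw [Pr_OZ hProd n p (O q) (Z q)]
  · have cO : (O q).card = q.1.card + q.2.card := by
      show (q.1.image (fun a => s(u, a)) ∪ q.2.image (fun b => s(v, b))).card = _
      rw [Finset.card_union_of_disjoint, Finset.card_image_of_injective _ (fun a b h => iu a b h),
        Finset.card_image_of_injective _ (fun a b h => iv a b h)]
      rw [Finset.disjoint_left]
      intro e h1 h2
      rw [Finset.mem_image] at h1 h2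
      obtain ⟨a, ha, rfl⟩ := h1
      obtain ⟨b, hb, h⟩ := h2
      exact d12 a (hq1 ha) b (hq2 hb) h.symm
    have cZ : (Z q).card = (V1.card - q.1.card) + (V2.card - q.2.card) +
        q.1.card * q.2.card := by
      show (((V1 \ q.1).image (fun a => s(u, a)) ∪ (V2 \ q.2).image (fun b => s(v, b))) ∪
        (q.1 ×ˢ q.2).image (fun c => s(c.1, c.2))).card = _
      rw [Finset.card_union_of_disjoint, Finset.card_union_of_disjoint,
        Finset.card_image_of_injective _ (fun a b h => iu a b h),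
        Finset.card_image_of_injective _ (fun a b h => iv a b h), Finset.card_image_of_injOn,
        Finset.card_product, Finset.card_sdiff_of_subset hq1, Finset.card_sdiff_of_subset hq2]
      · rintro ⟨a, b⟩ h1 ⟨a', b'⟩ h2 h
        rw [Finset.mem_coe, Finset.mem_product] at h1 h2
        simp only [Sym2.eq_iff] at h
        rcases h with ⟨h3, h4⟩ | ⟨h3, h4⟩
        · rw [h3, h4]
        · exact absurd (hq2 h2.2) (Finset.disjoint_left.1 hd (h3 ▸ hq1 h1.1))
      · rw [Finset.disjoint_left]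
        intro e h1 h2
        rw [Finset.mem_image] at h1 h2
        obtain ⟨a, ha, rfl⟩ := h1
        obtain ⟨b, hb, h⟩ := h2
        exact d12 a (Finset.mem_sdiff.1 ha).1 b (Finset.mem_sdiff.1 hb).1 h.symm
      · rw [Finset.disjoint_left]
        intro e h1 h2
        rw [Finset.mem_union, Finset.mem_image, Finset.mem_image] at h1
        rw [Finset.mem_image] at h2
        obtain ⟨⟨a, b⟩, hab, rfl⟩ := h2
        rw [Finset.mem_product] at hab
        rcases h1 with ⟨x, _, h⟩ | ⟨x, _, h⟩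
        · exact d13 x a (hq1 hab.1) b (hq2 hab.2) h
        · exact d23 x a (hq1 hab.1) b (hq2 hab.2) h
    rw [cO, cZ]
  · intro e he
    simp only [O, Finset.mem_union, Finset.mem_image] at he
    rcases he with ⟨a, ha, rfl⟩ | ⟨a, ha, rfl⟩
    · exact ndu a (hq1 ha)
    · exact ndv a (hq2 ha)
  · intro e he
    simp only [Z, Finset.mem_union, Finset.mem_image, Finset.mem_sdiff, Finset.mem_product] at he
    rcases he with (⟨a, ⟨h1, h2⟩, rfl⟩ | ⟨a, ⟨h1, h2⟩, rfl⟩) | ⟨⟨a, b⟩, ⟨h1, h2⟩, rfl⟩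
    · exact ndu a h1
    · exact ndv a h1
    · exact ndw a (hq1 h1) b (hq2 h2)
  · rw [Finset.disjoint_left]
    intro e he he'
    simp only [O, Finset.mem_union, Finset.mem_image] at he
    simp only [Z, Finset.mem_union, Finset.mem_image, Finset.mem_sdiff, Finset.mem_product] at he'
    rcases he with ⟨x, hx, rfl⟩ | ⟨x, hx, rfl⟩
    · rcases he' with (⟨a, ⟨h1, h2⟩, h⟩ | ⟨a, ⟨h1, h2⟩, h⟩) | ⟨⟨a, b⟩, ⟨h1, h2⟩, h⟩
      · exact h2 (iu _ _ h ▸ hx)
      · exact d12 x (hq1 hx) a h1 h.symm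
      · exact d13 x a (hq1 h1) b (hq2 h2) h.symm
    · rcases he' with (⟨a, ⟨h1, h2⟩, h⟩ | ⟨a, ⟨h1, h2⟩, h⟩) | ⟨⟨a, b⟩, ⟨h1, h2⟩, h⟩
      · exact d12 a h1 x (hq2 hx) h
      · exact h2 (iv _ _ h ▸ hx)
      · exact d23 x a (hq1 h1) b (hq2 h2) h.symm

theorem t : StProd → StDiam := by
  intro hProd n p hn hp0 hp1
  set K : ℝ := 2 * Real.exp (-(n * p / 16)) + Real.exp (-(p * (n * p / 16) ^ 2)) with hK
  have hK0 : 0 ≤ K := by positivity
  have h1 : Pr n p (fun G => ∃ u v : Fin n, ¬ (G.Reachable u v ∧ G.dist u v ≤ 3)) ≤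
      ∑ q ∈ (univ : Finset (Fin n × Fin n)),
        Pr n p (fun G => ¬ (G.Reachable q.1 q.2 ∧ G.dist q.1 q.2 ≤ 3)) := by
    apply Pr_le_sum n p hp0 hp1
    rintro G ⟨u, v, h⟩
    exact ⟨(u, v), Finset.mem_univ _, h⟩
  refine h1.trans ?_
  calc ∑ q ∈ (univ : Finset (Fin n × Fin n)),
        Pr n p (fun G => ¬ (G.Reachable q.1 q.2 ∧ G.dist q.1 q.2 ≤ 3))
      ≤ ∑ _q ∈ (univ : Finset (Fin n × Fin n)), K := by
        refine Finset.sum_le_sum fun q _ => ?_
        by_cases h : q.1 = q.2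
        · rw [Pr_eq]
          refine le_trans (le_of_eq (Finset.sum_eq_zero fun G _ => ?_)) hK0
          rw [if_neg]
          rw [not_not, h]
          exact ⟨SimpleGraph.Reachable.refl _, by rw [SimpleGraph.dist_self]; omega⟩
        · exact pair hProd n p hn hp0 hp1 q.1 q.2 h
    _ = (n : ℝ) ^ 2 * K := by
        rw [Finset.sum_const, Finset.card_univ, Fintype.card_prod, Fintype.card_fin, nsmul_eq_mul]
        push_cast
        ring

end Pool.Agent.K7.H12.MDDIAM
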